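import Pool.Agent.Q143.EI.Push

/-!
# Amalgamated products over a subgroup which is normal in one of the factors
-/

set_option autoImplicit false
set_option linter.unusedSectionVars false
set_option linter.style.haveILetI false

namespace Pool.Agent.Q152.AM

open Monoid Pool.Agent.Y462.SS Pool.Agent.Q152.WP Pool.Agent.Q105.FJ Pool.Agent.Q143.EI

variable {C : ∀ (G : Type) [Group G], Prop}

/-- `Γ` is the amalgamated product of `G` and `K` over `H` -/
structure Amal {H G K Γ : Type} [Group H] [Group G] [Group K] [Group Γ] (i : H →* G) (k : H →* K)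
    (a : G →* Γ) (b : K →* Γ) : Prop where
  comm : ∀ h, a (i h) = b (k h)
  lift : ∀ (T : Type) [Group T] (p : G →* T) (q : K →* T), (∀ h, p (i h) = q (k h)) →
    ∃ Ψ : Γ →* T, (∀ g, Ψ (a g) = p g) ∧ ∀ κ, Ψ (b κ) = q κ
  gen : ∀ S : Subgroup Γ, (∀ g, a g ∈ S) → (∀ κ, b κ ∈ S) → ∀ x, x ∈ S

section fam

variable {H K₀ G : Type} [Group H] [Group K₀] [Group G]

/-- the family of groups -/
def fam (K₀ G I : Type) : Option I → Type
  | none => K₀
  | some _ => G

instance fam.grp {I : Type} : ∀ o : Option I, Group (fam K₀ G I o)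
  | none => inferInstanceAs (Group K₀)
  | some _ => inferInstanceAs (Group G)

/-- the homomorphisms -/
def famh {I : Type} (j : H →* K₀) (i : H →* G) : ∀ o : Option I, H →* fam K₀ G I o
  | none => j
  | some _ => i

/-- the homomorphisms to `G` -/
def famr {I : Type} (ρ : K₀ →* G) : ∀ o : Option I, fam K₀ G I o →* G
  | none => ρ
  | some _ => MonoidHom.id G

/-- the amalgamated product of copies of `G` and of `K₀` -/
abbrev TT (I : Type) (j : H →* K₀) (i : H →* G) : Type := PushoutI (famh (I := I) j i)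

theorem tt_mem (hC : Closed C) (hE : ExtClosed C) (I : Type) (j : H →* K₀) (i : H →* G)
    (hj : Function.Injective j) (hi : Function.Injective i) (ρ : K₀ →* G) (hρ : ∀ h, ρ (j h) = i h)
    (hK : C K₀) (hG : C G) : C (TT I j i) := by
  refine push_edge hC hE (Q := G) ?_ ?_ hG (famr ρ) i ?_ hi
  · rintro (_ | x)
    · exact hj
    · exact hi
  · rintro (_ | x)
    · exact hK
    · exact hG
  · rintro (_ | x)
    · ext h
      exact hρ h
    · ext h
      rfl

end fam

section main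

variable {H G K Γ : Type} [Group H] [Group G] [Group K] [Group Γ] {i : H →* G} {k : H →* K}
  {a : G →* Γ} {b : K →* Γ}

/-- `κ` acts on `H` like `g` -/
def Like (i : H →* G) (k : H →* K) (κ : K) (g : G) : Prop :=
  ∀ h, ∃ h', k h' = κ * k h * κ⁻¹ ∧ i h' = g * i h * g⁻¹

theorem Like.mul {κ κ' : K} {g g' : G} (h : Like i k κ g) (h' : Like i k κ' g') :
    Like i k (κ * κ') (g * g') := by
  intro x
  obtain ⟨y, h1, h2⟩ := h' x
  obtain ⟨z, h3, h4⟩ := h y
  refine ⟨z, ?_, ?_⟩
  · rw [h3, h1]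
    group
  · rw [h4, h2]
    group

theorem like_one : Like i k 1 1 := by
  intro x
  refine ⟨x, ?_, ?_⟩ <;> group

theorem normal_of (hact : ∀ κ : K, ∃ g : G, Like i k κ g) : k.range.Normal := by
  refine ⟨?_⟩
  rintro _ ⟨h, rfl⟩ κ
  obtain ⟨g, hg⟩ := hact κ
  obtain ⟨h', h1, _⟩ := hg h
  exact ⟨h', h1⟩

theorem Like.inv (hk : Function.Injective k) (hact : ∀ κ : K, ∃ g : G, Like i k κ g)
    {κ : K} {g : G} (h : Like i k κ g) : Like i k κ⁻¹ g⁻¹ := by
  intro x
  obtain ⟨g', hg'⟩ := hact κ⁻¹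
  obtain ⟨y, h1, _⟩ := hg' x
  refine ⟨y, h1, ?_⟩
  obtain ⟨z, h3, h4⟩ := h y
  have h5 : z = x := by
    apply hk
    rw [h3, h1]
    group
  rw [h5] at h4
  rw [h4]
  group

theorem Like.zpow (hk : Function.Injective k) (hact : ∀ κ : K, ∃ g : G, Like i k κ g)
    {κ : K} {g : G} (h : Like i k κ g) (n : ℤ) : Like i k (κ ^ n) (g ^ n) := by
  have hnat : ∀ m : ℕ, Like i k (κ ^ m) (g ^ m) := by
    intro m
    induction m with
    | zero =>
      rw [pow_zero, pow_zero]
      exact like_one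
    | succ m ih =>
      rw [pow_succ, pow_succ]
      exact ih.mul h
  obtain ⟨m, rfl | rfl⟩ := n.eq_nat_or_neg
  · rw [zpow_natCast, zpow_natCast]
    exact hnat m
  · rw [zpow_neg, zpow_neg, zpow_natCast, zpow_natCast]
    exact (hnat m).inv hk hact

variable (K₀ : Subgroup K) (hN : k.range ≤ K₀)

/-- the homomorphism to the subgroup -/
def kr : H →* K₀ := k.codRestrict K₀ (fun h => hN ⟨h, rfl⟩)

theorem kr_injective (hk : Function.Injective k) : Function.Injective (kr K₀ hN) := by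
  intro x y hxy
  exact hk (congrArg Subtype.val hxy)

variable (s : K ⧸ K₀ → K) (γ : K ⧸ K₀ → G)

/-- the homomorphisms to `Γ` -/
def th (a : G →* Γ) (b : K →* Γ) : ∀ o : Option (K ⧸ K₀), fam K₀ G (K ⧸ K₀) o →* Γ
  | none => b.comp K₀.subtype
  | some x => (MulAut.conj (b (s x))⁻¹).toMonoidHom.comp
      (a.comp (MulAut.conj (γ x)).toMonoidHom)

/-- the labels of the elements of `G` -/
def Pg : G →* Wr (K ⧸ K₀) (TT (K ⧸ K₀) (kr K₀ hN) i) where
  toFun g := ⟨fun x => PushoutI.of (φ := famh (kr K₀ hN) i) (some x)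
    ((MulAut.conj (γ x)⁻¹ g : G)), 1⟩
  map_one' := by
    apply Wr.ext
    · funext x
      change PushoutI.of (φ := famh (kr K₀ hN) i) (some x) ((MulAut.conj (γ x)⁻¹ (1 : G) : G)) = 1
      rw [map_one]
      exact map_one _
    · rfl
  map_mul' g g' := by
    apply Wr.ext
    · funext x
      change PushoutI.of (φ := famh (kr K₀ hN) i) (some x) ((MulAut.conj (γ x)⁻¹ (g * g') : G)) =
        PushoutI.of (φ := famh (kr K₀ hN) i) (some x) ((MulAut.conj (γ x)⁻¹ g : G)) *
        PushoutI.of (φ := famh (kr K₀ hN) i) (some x) ((MulAut.conj (γ x)⁻¹ g' : G))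
      rw [map_mul]
      exact map_mul _ _ _
    · exact (one_mul _).symm

variable (hs : ∀ x, ((s x : K) : K ⧸ K₀) = x)

include hs in
theorem lab_mem (κ : K) (x : K ⧸ K₀) : (s (κ • x))⁻¹ * κ * s x ∈ K₀ := by
  have h1 : ((s (κ • x) : K) : K ⧸ K₀) = ((κ * s x : K) : K ⧸ K₀) := by
    rw [hs]
    have : κ • x = κ • ((s x : K) : K ⧸ K₀) := by rw [hs]
    rw [this]
    rfl
  have h2 := QuotientGroup.eq.1 h1
  rwa [← mul_assoc] at h2

/-- the labels of the elements of `K` -/
def Pk : K →* Wr (K ⧸ K₀) (TT (K ⧸ K₀) (kr K₀ hN) i) where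
  toFun κ := ⟨fun x => PushoutI.of (φ := famh (kr K₀ hN) i) none
    (⟨(s (κ • x))⁻¹ * κ * s x, lab_mem K₀ s hs κ x⟩ : K₀), MulAction.toPerm κ⟩
  map_one' := by
    apply Wr.ext
    · funext x
      change PushoutI.of (φ := famh (kr K₀ hN) i) none
        (⟨(s ((1 : K) • x))⁻¹ * 1 * s x, lab_mem K₀ s hs 1 x⟩ : K₀) = 1
      have : (⟨(s ((1 : K) • x))⁻¹ * 1 * s x, lab_mem K₀ s hs 1 x⟩ : K₀) = 1 := by
        apply Subtype.ext
        change (s ((1 : K) • x))⁻¹ * 1 * s x = 1
        rw [one_smul]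
        group
      rw [this]
      exact map_one _
    · ext x
      change (1 : K) • x = x
      exact one_smul _ _
  map_mul' κ κ' := by
    apply Wr.ext
    · funext x
      change PushoutI.of (φ := famh (kr K₀ hN) i) none
        (⟨(s ((κ * κ') • x))⁻¹ * (κ * κ') * s x, lab_mem K₀ s hs (κ * κ') x⟩ : K₀) =
        PushoutI.of (φ := famh (kr K₀ hN) i) none
        (⟨(s (κ • (κ' • x)))⁻¹ * κ * s (κ' • x), lab_mem K₀ s hs κ (κ' • x)⟩ : K₀) *
        PushoutI.of (φ := famh (kr K₀ hN) i) none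
        (⟨(s (κ' • x))⁻¹ * κ' * s x, lab_mem K₀ s hs κ' x⟩ : K₀)
      have : (⟨(s ((κ * κ') • x))⁻¹ * (κ * κ') * s x, lab_mem K₀ s hs (κ * κ') x⟩ : K₀) =
        (⟨(s (κ • (κ' • x)))⁻¹ * κ * s (κ' • x), lab_mem K₀ s hs κ (κ' • x)⟩ : K₀) *
        (⟨(s (κ' • x))⁻¹ * κ' * s x, lab_mem K₀ s hs κ' x⟩ : K₀) := by
        apply Subtype.ext
        change (s ((κ * κ') • x))⁻¹ * (κ * κ') * s x =
          ((s (κ • (κ' • x)))⁻¹ * κ * s (κ' • x)) * ((s (κ' • x))⁻¹ * κ' * s x)
        rw [mul_smul]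
        group
      rw [this]
      exact map_mul _ _ _
    · ext x
      change (κ * κ') • x = κ • (κ' • x)
      exact mul_smul _ _ _

/-- **Stabilizers.** -/
theorem stab_mem (hC : Closed C) (hE : ExtClosed C) (hΓ : Amal i k a b)
    (hi : Function.Injective i) (hk : Function.Injective k)
    (hact : ∀ κ : K, ∃ g : G, Like i k κ g) (hN : k.range ≤ K₀) (ρ : K₀ →* G)
    (hρ : ∀ h, ρ (kr K₀ hN h) = i h) (hK : C K₀) (hG : C G)
    (L : Subgroup Γ) (R : Type) [Group R] (f : Γ →* R) (π : K →* R)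
    (hfa : ∀ g, f (a g) = 1) (hfb : ∀ κ, f (b κ) = π κ) (hπ : Function.Surjective π)
    (hπK : ∀ κ, π κ = 1 → κ ∈ k.range)
    (hL : ∀ x ∈ L, ∃ κ ∈ K₀, f x = π κ) : C L := by
  classical
  haveI := normal_of hact
  let s : K ⧸ K₀ → K := Quotient.out
  have hs : ∀ x, ((s x : K) : K ⧸ K₀) = x := fun x => Quotient.out_eq x
  choose γ₀ hγ₀ using hact
  let γ : K ⧸ K₀ → G := fun x => γ₀ (s x)
  have hγ : ∀ x, Like i k (s x) (γ x) := fun x => hγ₀ (s x)
  have hinv : ∀ x, Like i k (s x)⁻¹ (γ x)⁻¹ := fun x => (hγ x).inv hk (fun κ => ⟨_, hγ₀ κ⟩)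
  -- the elements of the range act trivially
  have htriv : ∀ κ ∈ k.range, ∀ x : K ⧸ K₀, κ • x = x := by
    intro κ hκ x
    induction x using QuotientGroup.induction_on with
    | H y =>
      change ((κ * y : K) : K ⧸ K₀) = (y : K ⧸ K₀)
      rw [QuotientGroup.eq]
      have h1 : y⁻¹ * κ⁻¹ * y ∈ k.range := by
        have := (normal_of (fun κ => ⟨_, hγ₀ κ⟩) : k.range.Normal).conj_mem κ⁻¹
          (k.range.inv_mem hκ) y⁻¹
        rwa [inv_inv] at this
      have h2 : (κ * y)⁻¹ * y = y⁻¹ * κ⁻¹ * y := by group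
      rw [h2]
      exact hN h1
  have hcompat : ∀ h, Pg (i := i) K₀ hN γ (i h) = Pk (i := i) K₀ hN s hs (k h) := by
    intro h
    apply Wr.ext
    · funext x
      obtain ⟨h', h1, h2⟩ := hinv x h
      rw [inv_inv] at h1 h2
      change PushoutI.of (φ := famh (kr K₀ hN) i) (some x) ((MulAut.conj (γ x)⁻¹ (i h) : G)) =
        PushoutI.of (φ := famh (kr K₀ hN) i) none
        (⟨(s (k h • x))⁻¹ * k h * s x, lab_mem K₀ s hs (k h) x⟩ : K₀)
      have e1 : (MulAut.conj (γ x)⁻¹ (i h) : G) = famh (kr K₀ hN) i (some x) h' := by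
        change (γ x)⁻¹ * i h * ((γ x)⁻¹)⁻¹ = i h'
        rw [h2, inv_inv]
      have e2 : (⟨(s (k h • x))⁻¹ * k h * s x, lab_mem K₀ s hs (k h) x⟩ : K₀) =
          famh (I := K ⧸ K₀) (kr K₀ hN) i none h' := by
        apply Subtype.ext
        change (s (k h • x))⁻¹ * k h * s x = k h'
        rw [htriv (k h) ⟨h, rfl⟩ x, h1]
      rw [e1, e2, PushoutI.of_apply_eq_base, PushoutI.of_apply_eq_base]
    · ext x
      exact (htriv (k h) ⟨h, rfl⟩ x).symm
  obtain ⟨Ψ, hΨa, hΨb⟩ := hΓ.lift _ (Pg K₀ hN γ) (Pk K₀ hN s hs) hcompat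
  -- the homomorphism back
  have hth : ∀ o : Option (K ⧸ K₀), (th K₀ s γ a b o).comp (famh (kr K₀ hN) i o) = b.comp k := by
    rintro (_ | x)
    · rfl
    · ext h
      obtain ⟨h', h1, h2⟩ := hγ x h
      change (b (s x))⁻¹ * a (γ x * i h * (γ x)⁻¹) * ((b (s x))⁻¹)⁻¹ = b (k h)
      rw [← h2, hΓ.comm, h1, map_mul, map_mul, map_inv]
      group
  let Θ : TT (K ⧸ K₀) (kr K₀ hN) i →* Γ := PushoutI.lift (th K₀ s γ a b) (b.comp k) hth
  have hΘ : ∀ o x, Θ (PushoutI.of (φ := famh (kr K₀ hN) i) o x) = th K₀ s γ a b o x :=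
    fun o x => PushoutI.lift_of _ _ _ _
  -- the relation
  let S : Subgroup Γ :=
    { carrier := {y | ∀ x, y * b (s x) = b (s ((Ψ y).p x)) * Θ ((Ψ y).s x)}
      one_mem' := by
        intro x
        rw [map_one, Wr.one_p, Wr.one_s, map_one, one_mul, mul_one]
        rfl
      mul_mem' := by
        intro y z hy hz x
        rw [map_mul, Wr.mul_p, Wr.mul_s, map_mul, mul_assoc, hz x, ← mul_assoc, hy, mul_assoc]
        rfl
      inv_mem' := by
        intro y hy x
        have h1 := hy ((Ψ y).p⁻¹ x)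
        have h2 : (Ψ y).p ((Ψ y).p⁻¹ x) = x := (Ψ y).p.apply_symm_apply x
        rw [h2] at h1
        rw [map_inv, Wr.inv_p, Wr.inv_s, map_inv, eq_mul_inv_iff_mul_eq, mul_assoc,
          inv_mul_eq_iff_eq_mul]
        exact h1.symm }
  have hS : ∀ y, y ∈ S := by
    refine hΓ.gen S ?_ ?_
    · intro g x
      rw [hΨa]
      change a g * b (s x) = b (s x) * Θ (PushoutI.of (φ := famh (kr K₀ hN) i) (some x)
        ((MulAut.conj (γ x)⁻¹ g : G)))
      refine Eq.trans ?_ (congrArg (fun z => b (s x) * z)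
        (hΘ (some x) (MulAut.conj (γ x)⁻¹ g : G)).symm)
      change a g * b (s x) = b (s x) * ((b (s x))⁻¹ * a (γ x * ((γ x)⁻¹ * g * ((γ x)⁻¹)⁻¹) *
        (γ x)⁻¹) * ((b (s x))⁻¹)⁻¹)
      have : γ x * ((γ x)⁻¹ * g * ((γ x)⁻¹)⁻¹) * (γ x)⁻¹ = g := by group
      rw [this]
      group
    · intro κ x
      rw [hΨb]
      change b κ * b (s x) = b (s (κ • x)) * Θ (PushoutI.of (φ := famh (kr K₀ hN) i) none
        (⟨(s (κ • x))⁻¹ * κ * s x, lab_mem K₀ s hs κ x⟩ : K₀))
      refine Eq.trans ?_ (congrArg (fun z => b (s (κ • x)) * z)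
        (hΘ none (⟨(s (κ • x))⁻¹ * κ * s x, lab_mem K₀ s hs κ x⟩ : K₀)).symm)
      change b κ * b (s x) = b (s (κ • x)) * b ((s (κ • x))⁻¹ * κ * s x)
      rw [← map_mul, ← map_mul]
      congr 1
      group
  -- the permutations
  let S2 : Subgroup Γ :=
    { carrier := {y | ∀ κ, f y = π κ → ∀ x, (Ψ y).p x = κ • x}
      one_mem' := by
        intro κ hκ x
        rw [map_one] at hκ
        rw [map_one, Wr.one_p, htriv κ (hπK κ hκ.symm) x]
        rfl
      mul_mem' := by
        intro y z hy hz κ hκ x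
        obtain ⟨κ', hκ'⟩ := hπ (f z)
        have h1 := hz κ' hκ'.symm
        have h2 := hy (κ * κ'⁻¹) (by
          rw [map_mul, map_inv, hκ', ← hκ, map_mul]
          group)
        rw [map_mul, Wr.mul_p]
        change (Ψ y).p ((Ψ z).p x) = κ • x
        rw [h1, h2, ← mul_smul]
        congr 1
        group
      inv_mem' := by
        intro y hy κ hκ x
        have h1 := hy κ⁻¹ (by rw [map_inv, ← hκ, map_inv, inv_inv]) (κ • x)
        rw [inv_smul_smul] at h1
        rw [map_inv, Wr.inv_p]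
        change (Ψ y).p.symm x = κ • x
        rw [Equiv.symm_apply_eq]
        exact h1.symm }
  have hS2 : ∀ y, y ∈ S2 := by
    refine hΓ.gen S2 ?_ ?_
    · intro g κ hκ x
      rw [hfa] at hκ
      rw [hΨa, htriv κ (hπK κ hκ.symm) x]
      rfl
    · intro κ' κ hκ x
      rw [hfb] at hκ
      have h1 : κ'⁻¹ * κ ∈ k.range := hπK _ (by rw [map_mul, map_inv, hκ, inv_mul_cancel])
      rw [hΨb]
      change κ' • x = κ • x
      have h2 := htriv _ h1 x
      rw [mul_smul, inv_smul_eq_iff] at h2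
      exact h2.symm
  -- the homomorphism
  let x₀ : K ⧸ K₀ := ((1 : K) : K ⧸ K₀)
  have hfix : ∀ y ∈ L, (Ψ y).p x₀ = x₀ := by
    intro y hy
    obtain ⟨κ, hκ, h1⟩ := hL y hy
    rw [hS2 y κ h1 x₀]
    change ((κ * 1 : K) : K ⧸ K₀) = ((1 : K) : K ⧸ K₀)
    rw [QuotientGroup.eq, mul_one, mul_one]
    exact K₀.inv_mem hκ
  let F : L →* TT (K ⧸ K₀) (kr K₀ hN) i :=
    { toFun := fun y => (Ψ y.1).s x₀
      map_one' := by
        change (Ψ 1).s x₀ = 1
        rw [map_one, Wr.one_s]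
      map_mul' := fun y z => by
        change (Ψ (y.1 * z.1)).s x₀ = (Ψ y.1).s x₀ * (Ψ z.1).s x₀
        rw [map_mul, Wr.mul_s, hfix z.1 z.2] }
  refine hC.of_injective L _ F ?_ (tt_mem hC hE (K ⧸ K₀) (kr K₀ hN) i (kr_injective K₀ hN hk) hi ρ
    hρ hK hG)
  refine (injective_iff_map_eq_one F).2 ?_
  intro y hy
  have h1 := hS y.1 x₀
  rw [hfix y.1 y.2] at h1
  have h2 : (Ψ y.1).s x₀ = 1 := hy
  rw [h2, map_one, mul_one] at h1
  apply Subtype.ext
  exact mul_eq_right.1 h1

/-- the homomorphism from the preimage of an infinite cyclic subgroup -/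
theorem exists_rho (hi : Function.Injective i) (hk : Function.Injective k)
    (hact : ∀ κ : K, ∃ g : G, Like i k κ g) {R : Type} [Group R] (π : K →* R)
    (hπK : ∀ κ, π κ = 1 ↔ κ ∈ k.range) (κ₀ : K) (hq : ¬ IsOfFinOrder (π κ₀))
    (hN : k.range ≤ (Subgroup.zpowers (π κ₀)).comap π) :
    ∃ (ρ : (Subgroup.zpowers (π κ₀)).comap π →* G)
      (n : (Subgroup.zpowers (π κ₀)).comap π →* Multiplicative ℤ),
      (∀ h, ρ (kr _ hN h) = i h) ∧ Function.Injective (ρ.prod n) := by
  obtain ⟨g₀, hg₀⟩ := hact κ₀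
  have hz : ∀ n : ℤ, Like i k (κ₀ ^ n) (g₀ ^ n) := fun n => hg₀.zpow hk hact n
  have key : ∀ κ : (Subgroup.zpowers (π κ₀)).comap π, ∃ p : H × ℤ, κ.1 = k p.1 * κ₀ ^ p.2 := by
    intro κ
    obtain ⟨n, hn⟩ := Subgroup.mem_zpowers_iff.1 (Subgroup.mem_comap.1 κ.2)
    have h1 : κ.1 * κ₀ ^ (-n) ∈ k.range := by
      rw [← hπK, map_mul, map_zpow, ← hn, zpow_neg, mul_inv_cancel]
    obtain ⟨h, hh⟩ := h1
    refine ⟨(h, n), ?_⟩
    change κ.1 = k h * κ₀ ^ n
    rw [hh, zpow_neg, inv_mul_cancel_right]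
  have huniq : ∀ (h h' : H) (n n' : ℤ), k h * κ₀ ^ n = k h' * κ₀ ^ n' → h = h' ∧ n = n' := by
    intro h h' n n' he
    have h1 := congrArg π he
    rw [map_mul, map_mul, (hπK _).2 ⟨h, rfl⟩, (hπK _).2 ⟨h', rfl⟩, one_mul, one_mul, map_zpow,
      map_zpow] at h1
    have h2 : n = n' := injective_zpow_iff_not_isOfFinOrder.2 hq h1
    rw [h2] at he
    exact ⟨hk (mul_right_cancel he), h2⟩
  choose p hp using key
  have hone : p 1 = (1, 0) := by
    have h1 := hp 1
    have h2 : k (p 1).1 * κ₀ ^ (p 1).2 = k 1 * κ₀ ^ (0 : ℤ) := by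
      rw [← h1, map_one, zpow_zero, mul_one]
      rfl
    exact Prod.ext (huniq _ _ _ _ h2).1 (huniq _ _ _ _ h2).2
  have hmul : ∀ x y, (p (x * y)).2 = (p x).2 + (p y).2 ∧
      i (p (x * y)).1 = i (p x).1 * (g₀ ^ (p x).2 * i (p y).1 * (g₀ ^ (p x).2)⁻¹) := by
    intro x y
    obtain ⟨h'', h1, h2⟩ := hz (p x).2 (p y).1
    have h3 : k (p (x * y)).1 * κ₀ ^ (p (x * y)).2 =
        k ((p x).1 * h'') * κ₀ ^ ((p x).2 + (p y).2) := by
      rw [← hp (x * y), map_mul, h1, zpow_add]
      change x.1 * y.1 = _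
      rw [hp x, hp y]
      group
    obtain ⟨h4, h5⟩ := huniq _ _ _ _ h3
    refine ⟨h5, ?_⟩
    rw [h4, map_mul, h2]
  let ρ : (Subgroup.zpowers (π κ₀)).comap π →* G :=
    { toFun := fun x => i (p x).1 * g₀ ^ (p x).2
      map_one' := by
        rw [hone]
        change i 1 * g₀ ^ (0 : ℤ) = 1
        rw [map_one, zpow_zero, mul_one]
      map_mul' := fun x y => by
        rw [(hmul x y).2, (hmul x y).1, zpow_add]
        group }
  let n : (Subgroup.zpowers (π κ₀)).comap π →* Multiplicative ℤ :=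
    { toFun := fun x => Multiplicative.ofAdd (p x).2
      map_one' := by
        rw [hone]
        rfl
      map_mul' := fun x y => by
        rw [(hmul x y).1]
        rfl }
  refine ⟨ρ, n, ?_, ?_⟩
  · intro h
    have h1 : k (p (kr _ hN h)).1 * κ₀ ^ (p (kr _ hN h)).2 = k h * κ₀ ^ (0 : ℤ) := by
      rw [← hp, zpow_zero, mul_one]
      rfl
    obtain ⟨h2, h3⟩ := huniq _ _ _ _ h1
    change i (p (kr _ hN h)).1 * g₀ ^ (p (kr _ hN h)).2 = i h
    rw [h2, h3, zpow_zero, mul_one]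
  · refine (injective_iff_map_eq_one _).2 ?_
    intro x hx
    have h1 : (p x).2 = 0 := congrArg (fun z => Multiplicative.toAdd (Prod.snd z)) hx
    have h2 : i (p x).1 * g₀ ^ (p x).2 = 1 := congrArg Prod.fst hx
    rw [h1, zpow_zero, mul_one] at h2
    have h3 : (p x).1 = 1 := hi (h2.trans (map_one i).symm)
    apply Subtype.ext
    rw [hp x, h3, h1, map_one, zpow_zero, one_mul]
    rfl

/-- **Amalgamated products over a subgroup which is normal in one of the factors.** -/
theorem normal_amalgam (hC : Closed C) (hE : ExtClosed C) (hΓ : Amal i k a b)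
    (hi : Function.Injective i) (hk : Function.Injective k)
    (hact : ∀ κ : K, ∃ g : G, Like i k κ g) (hG : C G)
    {R : Type} [Group R] (hR : C R) (π : K →* R) (hπ : Function.Surjective π)
    (hπK : ∀ κ, π κ = 1 ↔ κ ∈ k.range) : C Γ := by
  obtain ⟨f, hfa, hfb⟩ := hΓ.lift R 1 π (fun h => ((hπK _).2 ⟨h, rfl⟩).symm)
  have hfa' : ∀ g, f (a g) = 1 := hfa
  refine hE Γ R f ?_ hR ?_ ?_
  · intro r
    obtain ⟨κ, rfl⟩ := hπ r
    exact ⟨b κ, hfb κ⟩
  · let e := (MonoidHom.ofInjective hk).symm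
    refine stab_mem k.range hC hE hΓ hi hk hact le_rfl (i.comp e.toMonoidHom) ?_ ?_ hG f.ker R f π
      hfa' hfb hπ (fun κ => (hπK κ).1) ?_
    · intro h
      change i (e (kr k.range le_rfl h)) = i h
      congr 1
      exact (MonoidHom.ofInjective hk).symm_apply_apply h
    · exact hC.of_injective _ _ (i.comp e.toMonoidHom) (hi.comp e.injective) hG
    · intro x hx
      exact ⟨1, Subgroup.one_mem _, by rw [map_one]; exact hx⟩
  · intro q hq
    obtain ⟨κ₀, rfl⟩ := hπ q
    have hN : k.range ≤ (Subgroup.zpowers (π κ₀)).comap π := by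
      intro κ hκ
      rw [Subgroup.mem_comap, (hπK κ).2 hκ]
      exact Subgroup.one_mem _
    obtain ⟨ρ, n, h1, h2⟩ := exists_rho hi hk hact π hπK κ₀ hq hN
    refine stab_mem _ hC hE hΓ hi hk hact hN ρ h1 ?_ hG _ R f π hfa' hfb hπ
      (fun κ => (hπK κ).1) ?_
    · exact hC.of_injective _ _ (ρ.prod n) h2 (hC.prod _ _ hG hC.int)
    · intro x hx
      obtain ⟨κ, hκ⟩ := hπ (f x)
      refine ⟨κ, ?_, hκ.symm⟩
      rw [Subgroup.mem_comap, hκ]
      exact hx

end main

/-- amalgamated products of two groups -/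
theorem amal_pushout {H : Type} [Group H] {A : Bool → Type} [∀ i, Group (A i)]
    (φ : ∀ i, H →* A i) : Amal (φ false) (φ true) (PushoutI.of (φ := φ) false)
      (PushoutI.of (φ := φ) true) := by
  refine ⟨?_, ?_, ?_⟩
  · intro h
    rw [PushoutI.of_apply_eq_base, PushoutI.of_apply_eq_base]
  · intro T _ p q hpq
    let f : ∀ i, A i →* T := fun i => match i with
      | false => p
      | true => q
    have hf : ∀ i, (f i).comp (φ i) = p.comp (φ false) := by
      rintro (_ | _)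
      · rfl
      · ext h
        exact (hpq h).symm
    exact ⟨PushoutI.lift f (p.comp (φ false)) hf, fun g => PushoutI.lift_of f _ hf g,
      fun κ => PushoutI.lift_of f _ hf κ⟩
  · intro S h1 h2 x
    induction x using PushoutI.induction_on with
    | of i g =>
      cases i with
      | false => exact h1 g
      | true => exact h2 g
    | base h =>
      rw [← PushoutI.of_apply_eq_base φ false]
      exact h1 _
    | mul x y hx hy => exact S.mul_mem hx hy

/-- The general form: the group `K` acts on `H` like a group of the class in which `G` maps. -/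
theorem general_amalgam (hC : Closed C) (hE : ExtClosed C) {H : Type} [Group H]
    {A : Bool → Type} [∀ i, Group (A i)] (φ : ∀ i, H →* A i)
    (hφ : ∀ i, Function.Injective (φ i)) (hG : C (A false)) {Q : Type} [Group Q] (hQ : C Q)
    (j : A false →* Q) (hj : Function.Injective (j.comp (φ false)))
    (hact : ∀ κ : A true, ∃ q : Q, ∀ h, ∃ h', φ true h' = κ * φ true h * κ⁻¹ ∧
      j (φ false h') = q * j (φ false h) * q⁻¹)
    {R : Type} [Group R] (hR : C R) (π : A true →* R) (hπ : Function.Surjective π)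
    (hπK : ∀ κ, π κ = 1 ↔ κ ∈ (φ true).range) : C (PushoutI φ) := by
  let B : Bool → Type := fun i => match i with
    | false => Q
    | true => A true
  letI : ∀ i, Group (B i) := fun i => match i with
    | false => inferInstanceAs (Group Q)
    | true => inferInstanceAs (Group (A true))
  let χ : ∀ i, H →* B i := fun i => match i with
    | false => j.comp (φ false)
    | true => φ true
  have hΓ : C (PushoutI χ) := normal_amalgam hC hE (amal_pushout χ) hj (hφ true) hact hQ hR π hπ hπK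
  have hχ : ∀ i, Function.Injective (χ i) := by
    rintro (_ | _)
    · exact hj
    · exact hφ true
  have hK : C (A true) :=
    hC.of_injective _ _ (PushoutI.of (φ := χ) true) (PushoutI.of_injective hχ true) hΓ
  let F : ∀ i, A i →* PushoutI χ := fun i => match i with
    | false => (PushoutI.of (φ := χ) false).comp j
    | true => PushoutI.of (φ := χ) true
  refine push_edge hC hE hφ ?_ hΓ F (PushoutI.base χ) ?_ (PushoutI.base_injective hχ)
  · rintro (_ | _)
    · exact hG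
    · exact hK
  · rintro (_ | _)
    · ext h
      exact PushoutI.of_apply_eq_base χ false h
    · ext h
      exact PushoutI.of_apply_eq_base χ true h

end Pool.Agent.Q152.AM
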