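import Pool.Agent.Q152.AM.Syll
import Pool.Agent.Q152.EM.Mit
import Pool.Agent.Q143.EI.Push

/-!
# Adjoining roots, and embeddings in divisible groups
-/

set_option autoImplicit false
set_option linter.unusedSectionVars false
set_option linter.style.haveILetI false

namespace Pool.Agent.Q152.AM

open Monoid Pool.Agent.Y462.SS Pool.Agent.Q152.WP Pool.Agent.Q105.FJ Pool.Agent.Q143.EI
  Pool.Agent.Q152.EM

variable {C : ∀ (G : Type) [Group G], Prop}

section wreath

variable (n : ℕ) [NeZero n] {G : Type} [Group G]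

/-- the diagonal embedding -/
def dg : G →* Wr (ZMod n) G where
  toFun g := ⟨fun _ => g, 1⟩
  map_one' := rfl
  map_mul' _ _ := Wr.ext rfl (one_mul 1).symm

theorem dg_injective : Function.Injective (dg n (G := G)) := by
  intro a b hab
  exact congrFun (congrArg Wr.s hab) 0

/-- the root -/
def rt (g : G) : Wr (ZMod n) G := ⟨fun i => if i = 0 then g else 1, Equiv.addRight 1⟩

theorem val_sub_one {i : ZMod n} (hi : i ≠ 0) : (i - 1).val = i.val - 1 := by
  have h1 : 0 < i.val := by
    rw [Nat.pos_iff_ne_zero]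
    intro h
    exact hi ((ZMod.val_eq_zero i).1 h)
  have h2 : i.val < n := ZMod.val_lt i
  haveI : Fact (1 < n) := ⟨by omega⟩
  rw [ZMod.val_sub, ZMod.val_one n]
  rw [ZMod.val_one n]
  omega

theorem rt_pow_p (g : G) (m : ℕ) (i : ZMod n) : ((rt n g) ^ m).p i = i + m := by
  induction m generalizing i with
  | zero =>
    rw [pow_zero, Nat.cast_zero, add_zero]
    rfl
  | succ m ih =>
    rw [pow_succ, Wr.mul_p]
    change ((rt n g) ^ m).p (i + 1) = _
    rw [ih, Nat.cast_succ]
    ring

theorem rt_pow_s (g : G) (m : ℕ) (hm : m ≤ n) (i : ZMod n) :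
    ((rt n g) ^ m).s i = if (-i).val < m then g else 1 := by
  induction m generalizing i with
  | zero =>
    rw [pow_zero, if_neg (Nat.not_lt_zero _)]
    rfl
  | succ m ih =>
    rw [pow_succ, Wr.mul_s]
    change ((rt n g) ^ m).s (i + 1) * (if i = 0 then g else 1) = _
    rw [ih (by omega)]
    by_cases hi : i = 0
    · subst hi
      have h1 : (-(0 + 1) : ZMod n).val = n - 1 := by
        rw [zero_add]
        obtain ⟨k, rfl⟩ : ∃ k, n = k + 1 := ⟨n - 1, by have := NeZero.ne n; omega⟩
        rw [ZMod.val_neg_one]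
        rfl
      rw [h1, if_pos rfl, if_neg (by omega), one_mul, neg_zero, ZMod.val_zero,
        if_pos (Nat.succ_pos m)]
    · have hi' : -i ≠ 0 := neg_ne_zero.2 hi
      have h1 : (-(i + 1) : ZMod n).val = (-i).val - 1 := by
        have : (-(i + 1) : ZMod n) = -i - 1 := by ring
        rw [this]
        exact val_sub_one n hi'
      have h2 : 0 < (-i).val := by
        rw [Nat.pos_iff_ne_zero]
        intro h
        exact hi' ((ZMod.val_eq_zero _).1 h)
      rw [h1, if_neg hi, mul_one]
      by_cases h3 : (-i).val < m + 1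
      · rw [if_pos h3, if_pos (by omega)]
      · rw [if_neg h3, if_neg (by omega)]

theorem rt_pow (g : G) : (rt n g) ^ n = dg n g := by
  apply Wr.ext
  · funext i
    rw [rt_pow_s n g n le_rfl i, if_pos (ZMod.val_lt _)]
    rfl
  · ext i
    rw [rt_pow_p]
    rw [ZMod.natCast_self, add_zero]
    rfl

end wreath

section root

variable (n : ℕ) (G : Type) [Group G]

/-- the two groups -/
def Bl : Bool → Type
  | false => G
  | true => Multiplicative ℤ

instance Bl.grp : ∀ b, Group (Bl G b)
  | false => inferInstanceAs (Group G)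
  | true => inferInstanceAs (Group (Multiplicative ℤ))

variable {G}

/-- the two homomorphisms: `1` is mapped to `g` and to `n` -/
def ph (g : G) : ∀ b, Multiplicative ℤ →* Bl G b
  | false => zpowersHom G g
  | true => powMonoidHom n

/-- the group obtained from `G` by adjoining an `n`-th root of `g` -/
abbrev AR (g : G) : Type := PushoutI (ph n g)

theorem zpowersHom_injective {g : G} (hg : ¬ IsOfFinOrder g) :
    Function.Injective (zpowersHom G g) := by
  intro x y hxy
  have h1 : g ^ (Multiplicative.toAdd x) = g ^ (Multiplicative.toAdd y) := hxy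
  exact injective_zpow_iff_not_isOfFinOrder.2 hg h1

variable [NeZero n]

theorem ph_injective {g : G} (hg : ¬ IsOfFinOrder g) (b : Bool) :
    Function.Injective (ph n g b) := by
  cases b with
  | false => exact zpowersHom_injective hg
  | true =>
    intro x y hxy
    have h1 : (Multiplicative.toAdd x) * (n : ℤ) = (Multiplicative.toAdd y) * (n : ℤ) := by
      have := congrArg Multiplicative.toAdd (show x ^ n = y ^ n from hxy)
      rw [toAdd_pow, toAdd_pow, nsmul_eq_mul, nsmul_eq_mul] at this
      rw [mul_comm, this, mul_comm]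
    have h2 : (n : ℤ) ≠ 0 := by exact_mod_cast NeZero.ne n
    exact Multiplicative.toAdd.injective (mul_right_cancel₀ h2 h1)

/-- the root in `AR n g` -/
def rr (g : G) : AR n g :=
  PushoutI.of (φ := ph n g) true (Multiplicative.ofAdd (1 : ℤ) : Multiplicative ℤ)

theorem rr_pow (g : G) : (rr n g) ^ n = PushoutI.of (φ := ph n g) false g := by
  refine Eq.trans (map_pow (PushoutI.of (φ := ph n g) true)
    (Multiplicative.ofAdd (1 : ℤ) : Multiplicative ℤ) n).symm ?_
  have e1 : ((Multiplicative.ofAdd (1 : ℤ) : Multiplicative ℤ) ^ n : Bl G true) =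
    ph n g true (Multiplicative.ofAdd 1) := rfl
  have e2 : PushoutI.of (φ := ph n g) false g =
      PushoutI.of (φ := ph n g) false (ph n g false (Multiplicative.ofAdd 1)) := by
    congr 1
    exact (zpow_one g).symm
  rw [e2, PushoutI.of_apply_eq_base]
  exact PushoutI.of_apply_eq_base (ph n g) true (Multiplicative.ofAdd 1)

/-- the homomorphisms to the wreath product -/
def arf (g : G) : ∀ b, Bl G b →* Wr (ZMod n) G
  | false => dg n
  | true => zpowersHom _ (rt n g)

theorem arf_comp (g : G) (b : Bool) :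
    (arf n g b).comp (ph n g b) = (dg n).comp (zpowersHom G g) := by
  cases b with
  | false => rfl
  | true =>
    refine MonoidHom.ext_mint ?_
    change (zpowersHom _ (rt n g)) ((Multiplicative.ofAdd (1 : ℤ)) ^ n) =
      dg n (g ^ (1 : ℤ))
    rw [map_pow, zpow_one]
    have : zpowersHom (Wr (ZMod n) G) (rt n g) (Multiplicative.ofAdd 1) = rt n g :=
      zpow_one _
    rw [this, rt_pow]

/-- the homomorphism of `AR n g` to the wreath product -/
def arw (g : G) : AR n g →* Wr (ZMod n) G :=
  PushoutI.lift (arf n g) ((dg n).comp (zpowersHom G g)) (arf_comp n g)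

theorem wr_mem (hC : Closed C) (hG : C G) : C (Wr (ZMod n) G) :=
  by
  have hfin : Finite (ZMod n) := inferInstance
  exact Pool.Agent.Y812.SS.t_wr C hC _ G hfin hG

theorem ar_mem (hC : Closed C) (hE : ExtClosed C) (hG : C G) {g : G} (hg : ¬ IsOfFinOrder g) :
    C (AR n g) := by
  refine push_edge hC hE (ph_injective n hg) ?_ (wr_mem n hC hG) (arf n g)
    ((dg n).comp (zpowersHom G g)) (arf_comp n g) ((dg_injective n).comp (zpowersHom_injective hg))
  rintro (_ | _)
  · exact hG
  · exact hC.int

/-- the embedding of `G` -/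
def il (g : G) : G →* AR n g := PushoutI.of (φ := ph n g) false

theorem il_injective {g : G} (hg : ¬ IsOfFinOrder g) : Function.Injective (il n g) :=
  PushoutI.of_injective (ph_injective n hg) false

end root

section all

variable (n : ℕ) [NeZero n] (G : Type) [Group G]

/-- the elements of infinite order -/
abbrev Io : Type := {g : G // ¬ IsOfFinOrder g}

/-- the homomorphisms -/
def ie (g : Io G) : G →* AR n g.1 := il n g.1

/-- the group obtained from `G` by adjoining `n`-th roots of all elements of infinite order -/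
abbrev ER : Type := PushoutI (ie n G)

theorem ie_injective (g : Io G) : Function.Injective (ie n G g) := il_injective n g.2

/-- the inclusion of a vertex group -/
def iv (g : Io G) : AR n g.1 →* ER n G := PushoutI.of (φ := ie n G) g

variable {G}

theorem er_mem [Nonempty (Io G)] (hC : Closed C) (hE : ExtClosed C) (hG : C G) : C (ER n G) := by
  refine push_edge hC hE (ie_injective n G) (fun g => ar_mem n hC hE hG g.2) (wr_mem n hC hG)
    (fun g => arw n g.1) (dg n) ?_ (dg_injective n)
  intro g
  refine MonoidHom.ext (fun x => ?_)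
  exact PushoutI.lift_of (arf n g.1) ((dg n).comp (zpowersHom G g.1)) (arf_comp n g.1)
    (i := false) x

theorem er_root (g : G) (hg : ¬ IsOfFinOrder g) : ∃ r : ER n G, r ^ n = PushoutI.base (ie n G) g := by
  refine ⟨iv n G ⟨g, hg⟩ (rr n g), ?_⟩
  rw [← map_pow, rr_pow]
  exact PushoutI.of_apply_eq_base (ie n G) ⟨g, hg⟩ g

theorem tf_push {ι H : Type} [Nonempty ι] [Group H] {A : ι → Type} [∀ i, Group (A i)]
    {φ : ∀ i, H →* A i} (hφ : ∀ i, Function.Injective (φ i)) (hA : ∀ i, TF (A i)) :
    TF (PushoutI φ) := by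
  intro x hx
  obtain ⟨m, hm, hxm⟩ := isOfFinOrder_iff_pow_eq_one.1 hx
  obtain ⟨c, b, y, h1, h2⟩ := Sy.amalg_torsion hφ x m hm.ne' hxm
  have h3 : y = 1 := hA b y (isOfFinOrder_iff_pow_eq_one.2 ⟨m, hm, h2⟩)
  rw [h1, h3, map_one, mul_one, mul_inv_cancel]

theorem tf_int : TF (Multiplicative ℤ) := by
  intro x hx
  by_contra h
  exact not_isOfFinOrder_of_isMulTorsionFree h hx

theorem er_tf [Nonempty (Io G)] (hG : TF G) : TF (ER n G) := by
  refine tf_push (ie_injective n G) (fun g => ?_)
  refine tf_push (ph_injective n g.2) ?_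
  rintro (_ | _)
  · exact hG
  · exact tf_int

theorem countable_push {ι H : Type} [Countable ι] [Nonempty ι] [Group H] {A : ι → Type}
    [∀ i, Group (A i)] {φ : ∀ i, H →* A i} (hA : ∀ i, Countable (A i)) :
    Countable (PushoutI φ) := by
  have h1 : Subgroup.closure (⋃ i, Set.range (PushoutI.of (φ := φ) i)) = ⊤ := by
    rw [eq_top_iff]
    intro x _
    induction x using PushoutI.induction_on with
    | of i g => exact Subgroup.subset_closure (Set.mem_iUnion.2 ⟨i, ⟨g, rfl⟩⟩)
    | base h =>
      rw [← PushoutI.of_apply_eq_base φ (Classical.arbitrary ι)]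
      exact Subgroup.subset_closure (Set.mem_iUnion.2 ⟨_, ⟨_, rfl⟩⟩)
    | mul x y hx hy => exact Subgroup.mul_mem _ (hx (Subgroup.mem_top _)) (hy (Subgroup.mem_top _))
  have h2 : Countable (Subgroup.closure (⋃ i, Set.range (PushoutI.of (φ := φ) i))) :=
    countable_closure _ (Set.countable_iUnion (fun i => by
      haveI := hA i
      exact Set.countable_range _))
  rw [h1] at h2
  exact (Subgroup.topEquiv (G := PushoutI φ)).symm.injective.countable

theorem er_countable [Nonempty (Io G)] [Countable G] : Countable (ER n G) := by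
  refine countable_push (fun g => ?_)
  refine countable_push ?_
  rintro (_ | _)
  · exact ‹Countable G›
  · change Countable (Multiplicative ℤ)
    infer_instance

theorem wr_countable [Countable G] : Countable (Wr (ZMod n) G) := by
  haveI : Finite (ZMod n) := inferInstance
  have : Function.Injective (fun w : Wr (ZMod n) G => (w.s, w.p)) := by
    intro v w h
    exact Wr.ext (congrArg Prod.fst h) (congrArg Prod.snd h)
  exact this.countable

/-- roots of all elements -/
theorem root_step (G : Type) [Group G] : ∃ (G' : Type) (_ : Group G') (j : G →* G'),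
    Function.Injective j ∧
    (∀ C : ∀ (G : Type) [Group G], Prop, Closed C → ExtClosed C → C G → C G') ∧
    (TF G → TF G') ∧ (Countable G → Countable G') ∧ ∀ g, ∃ r, r ^ n = j g := by
  classical
  by_cases hTF : TF G
  · by_cases hne : Nonempty (Io G)
    · refine ⟨ER n G, inferInstance, PushoutI.base (ie n G), PushoutI.base_injective (ie_injective n G),
        fun C hC hE hG => er_mem n hC hE hG, fun h => er_tf n h, fun _ => er_countable n, ?_⟩
      intro g
      by_cases hg : IsOfFinOrder g
      · exact ⟨1, by rw [hTF g hg, one_pow, map_one]⟩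
      · exact er_root n g hg
    · refine ⟨G, inferInstance, MonoidHom.id G, fun _ _ h => h, fun _ _ _ h => h, id, id, ?_⟩
      intro g
      have hg : IsOfFinOrder g := by
        by_contra h
        exact hne ⟨⟨g, h⟩⟩
      exact ⟨1, by rw [hTF g hg, one_pow, map_one]⟩
  · exact ⟨Wr (ZMod n) G, inferInstance, dg n, dg_injective n, fun C hC _ hG => wr_mem n hC hG,
      fun h => absurd h hTF, fun _ => wr_countable n, fun g => ⟨rt n g, rt_pow n g⟩⟩

/-- the step of the construction -/
theorem step (G : Type) [Group G] : ∃ (G' : Type) (_ : Group G') (j : G →* G'),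
    Function.Injective j ∧
    (∀ C : ∀ (G : Type) [Group G], Prop, Closed C → ExtClosed C → C G → C G') ∧
    (TF G → TF G') ∧ (Countable G → Countable G') ∧ (∀ g, ∃ r, r ^ n = j g) ∧
    ∀ g, ∃ x y, j g = x * y * x⁻¹ * y⁻¹ := by
  obtain ⟨G', hG', j, h1, h2, h3, h4, h5⟩ := root_step n (MT G)
  refine ⟨G', hG', j.comp (iM G), h1.comp (iM_injective G), fun C hC hE hG =>
    h2 C hC hE (MT_mem hC hE hG), fun hG => h3 (fun u hu => MT_torsionFree hG u hu), ?_,
    fun g => h5 (iM G g), ?_⟩
  · intro hG
    exact h4 (MT_countable G)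
  · intro g
    obtain ⟨s, d, hd, _⟩ := exists_mitosis G
    have h6 : s * iM G g * s⁻¹ = (iM G g)⁻¹ * (d * iM G g * d⁻¹) := by
      rw [hd g, inv_mul_cancel_left]
    refine ⟨j (s⁻¹ * (iM G g)⁻¹ * s), j (s⁻¹ * d * s), ?_⟩
    have key : ∀ a b : MT G, j (a * b * a⁻¹ * b⁻¹) = j a * j b * (j a)⁻¹ * (j b)⁻¹ := by
      intro a b
      simp only [map_mul, map_inv]
    rw [← key, MonoidHom.comp_apply]
    congr 1
    have h8 : s⁻¹ * (iM G g)⁻¹ * s * (s⁻¹ * d * s) * (s⁻¹ * (iM G g)⁻¹ * s)⁻¹ * (s⁻¹ * d * s)⁻¹ =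
        s⁻¹ * ((iM G g)⁻¹ * (d * iM G g * d⁻¹)) * s := by group
    rw [h8, ← h6]
    group

end all

/-- the successor -/
noncomputable def Ng (n : ℕ) [NeZero n] (G : Type) [Group G] : Type := (step n G).choose

noncomputable instance (n : ℕ) [NeZero n] (G : Type) [Group G] : Group (Ng n G) :=
  (step n G).choose_spec.choose

/-- the embedding in the successor -/
noncomputable def Nj (n : ℕ) [NeZero n] (G : Type) [Group G] : G →* Ng n G :=
  (step n G).choose_spec.choose_spec.choose

theorem Nj_spec (n : ℕ) [NeZero n] (G : Type) [Group G] : Function.Injective (Nj n G) ∧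
    (∀ C : ∀ (G : Type) [Group G], Prop, Closed C → ExtClosed C → C G → C (Ng n G)) ∧
    (TF G → TF (Ng n G)) ∧ (Countable G → Countable (Ng n G)) ∧
    (∀ g, ∃ r, r ^ n = Nj n G g) ∧ ∀ g, ∃ x y, Nj n G g = x * y * x⁻¹ * y⁻¹ :=
  (step n G).choose_spec.choose_spec.choose_spec

instance facNZ (k : ℕ) : NeZero (k.factorial) := ⟨k.factorial_ne_zero⟩

/-- the sequence of groups -/
noncomputable def dsq (G : Type) [Group G] : ℕ → (Σ T : Type, Group T)
  | 0 => ⟨G, inferInstance⟩
  | k + 1 => ⟨@Ng k.factorial _ (dsq G k).1 (dsq G k).2,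
      @instGroupNg k.factorial _ (dsq G k).1 (dsq G k).2⟩

noncomputable instance (G : Type) [Group G] (n : ℕ) : Group (dsq G n).1 := (dsq G n).2

/-- the embeddings -/
noncomputable def dsf (G : Type) [Group G] (n : ℕ) : (dsq G n).1 →* (dsq G (n + 1)).1 :=
  Nj n.factorial (dsq G n).1

theorem dsq_spec (G : Type) [Group G] (k : ℕ) : Function.Injective (dsf G k) ∧
    (∀ C : ∀ (G : Type) [Group G], Prop, Closed C → ExtClosed C → C (dsq G k).1 →
      C (dsq G (k + 1)).1) ∧
    (TF (dsq G k).1 → TF (dsq G (k + 1)).1) ∧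
    (Countable (dsq G k).1 → Countable (dsq G (k + 1)).1) ∧
    (∀ y : (dsq G k).1, ∃ r : (dsq G (k + 1)).1, r ^ k.factorial = dsf G k y) ∧
    ∀ y : (dsq G k).1, ∃ a b : (dsq G (k + 1)).1, dsf G k y = a * b * a⁻¹ * b⁻¹ :=
  Nj_spec k.factorial (dsq G k).1

/-- **Embedding in divisible groups.** -/
theorem divisible_embed (G : Type) [Group G] : ∃ (D : Type) (_ : Group D) (k : G →* D),
    Function.Injective k ∧ (∀ d : D, ∀ n : ℕ, n ≠ 0 → ∃ r : D, r ^ n = d) ∧
    (∀ d : D, ∃ x y : D, d = x * y * x⁻¹ * y⁻¹) ∧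
    (∀ C : ∀ (G : Type) [Group G], Prop, Closed C → ExtClosed C → C G → C D) ∧
    ((∀ u : G, IsOfFinOrder u → u = 1) → ∀ u : D, IsOfFinOrder u → u = 1) ∧
    (Countable G → Countable D) := by
  obtain ⟨L, hL, g, hg, hgf, hgs⟩ := exists_union (fun n => (dsq G n).1) (dsf G)
    (fun n => (dsq_spec G n).1)
  have hup : ∀ (n m : ℕ) (x : (dsq G n).1), n ≤ m → ∃ y : (dsq G m).1, g m y = g n x := by
    intro n m x hnm
    induction m, hnm using Nat.le_induction with
    | base => exact ⟨x, rfl⟩
    | succ m _ ih =>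
      obtain ⟨y, hy⟩ := ih
      exact ⟨dsf G m y, (hgf m y).trans hy⟩
  refine ⟨L, hL, g 0, hg 0, ?_, ?_, ?_, ?_, ?_⟩
  · intro d n hn
    obtain ⟨m, x, rfl⟩ := hgs d
    obtain ⟨y, hy⟩ := hup m (max m n) x (le_max_left _ _)
    obtain ⟨r, hr⟩ := (dsq_spec G (max m n)).2.2.2.2.1 y
    obtain ⟨q, hq⟩ := Nat.dvd_factorial (Nat.pos_of_ne_zero hn) (le_max_right m n)
    refine ⟨g (max m n + 1) (r ^ q), ?_⟩
    rw [← map_pow, ← pow_mul, mul_comm q n, ← hq, hr, hgf, hy]
  · intro d
    obtain ⟨m, x, rfl⟩ := hgs d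
    obtain ⟨a, b, hab⟩ := (dsq_spec G m).2.2.2.2.2 x
    refine ⟨g (m + 1) a, g (m + 1) b, ?_⟩
    rw [← hgf, hab]
    simp only [map_mul, map_inv]
  · intro C hC hE hG
    refine union_mem hC (fun n => (dsq G n).1) (dsf G) L g hg hgf hgs ?_
    intro n
    induction n with
    | zero => exact hG
    | succ n ih => exact (dsq_spec G n).2.1 C hC hE ih
  · intro hG u hu
    obtain ⟨n, x, rfl⟩ := hgs u
    have hT : ∀ n, TF (dsq G n).1 := by
      intro n
      induction n with
      | zero => exact hG
      | succ n ih => exact (dsq_spec G n).2.2.1 ih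
    have hx : IsOfFinOrder x := by
      rw [isOfFinOrder_iff_pow_eq_one] at hu ⊢
      obtain ⟨m, hm, hm'⟩ := hu
      refine ⟨m, hm, hg n ?_⟩
      rw [map_pow, hm', map_one]
    rw [hT n x hx, map_one]
  · intro hG
    have hT : ∀ n, Countable (dsq G n).1 := by
      intro n
      induction n with
      | zero => exact hG
      | succ n ih => exact (dsq_spec G n).2.2.2.1 ih
    haveI : ∀ n, Countable (dsq G n).1 := hT
    have hsur : Function.Surjective (fun y : (Σ n, (dsq G n).1) => g y.1 y.2) := by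
      intro u
      obtain ⟨n, x, rfl⟩ := hgs u
      exact ⟨⟨n, x⟩, rfl⟩
    exact hsur.countable

end Pool.Agent.Q152.AM
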